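import Pool.Agent.W_MP_441f99_an.Final

set_option autoImplicit false

namespace Pool.Agent.Results.MP_441f99_an.NotC0ImpliesSigma

open Pool.Agent.W_MP_441f99_an

/-- For every hereditary cover `F` of `ℕ`, the property `(¬c₀)` implies the property `(Σ)`. -/
theorem result (F : Set (Finset ℕ)) (hF : IsHereditaryCover F) (h : NotC0 F) : PropSigma F :=
  final F hF h

end Pool.Agent.Results.MP_441f99_an.NotC0ImpliesSigma
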